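import Pool.Agent.H207.BT.Stm4

/-!
# Project BT: the concrete root lemma from the abstract one
-/

set_option autoImplicit false

open Topology Filter Metric Set

namespace Pool.Agent.H965.BT207

open Pool.Agent.H790R3.RB Pool.Agent.H211.HY Pool.Agent.H207.BT

/-- the assertion in the chart `τ` near the critical point `l` -/
def RB {d k : ℕ} (x₀ : CV d) (c₀ : Fin k → ℂ) (m : Fin k → ℕ) (X : (Fin k → ℂ) → CV d)
    (c : Fin k → (Fin k → ℂ) → ℂ) (l : Fin k) (τ : Bool) (η B : ℝ) : Prop :=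
  ∀ (z : ℂ) (w : (Fin k → ℂ) → ℂ) (y r K : ℝ), ‖z - lc τ (c₀ l, 1)‖ ≤ η → 0 < y → y ≤ η →
    y ^ (m l + 1) = ‖w 0 - cv x₀ X (c₀ l) (c l) 0‖ → 0 < r → 1 ≤ K →
    B * K * r ≤ y ^ (m l + 1) →
    (∀ s ∈ ball (0 : Fin k → ℂ) r, ∀ s' ∈ ball (0 : Fin k → ℂ) r,
      ‖w s - w s'‖ ≤ K * ‖s - s'‖) →
    ∃ q : (Fin k → ℂ) → ℂ,
      ‖q 0 - z‖ ≤ B * (y + ‖z - lc τ (c₀ l, 1)‖) ∧ y ≤ B * ‖q 0 - z‖ ∧
      (∀ s ∈ ball (0 : Fin k → ℂ) r, ∀ s' ∈ ball (0 : Fin k → ℂ) r,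
        y ^ m l * ‖q s - q s'‖ ≤ B * K * ‖s - s'‖) ∧
      ∀ s ∈ ball (0 : Fin k → ℂ) r, wr (X s) (iot τ (q s)) ≠ 0 ∧
        cr (hF (X s) (iot τ (q s))) (iot (tau (qo x₀ (c₀ l) 1)) (w s)) = 0

theorem RB_mono {d k : ℕ} {x₀ : CV d} {c₀ : Fin k → ℂ} {m : Fin k → ℕ} {X : (Fin k → ℂ) → CV d}
    {c : Fin k → (Fin k → ℂ) → ℂ} {l : Fin k} {τ : Bool} {η B η' B' : ℝ}
    (h : RB x₀ c₀ m X c l τ η B) (hη : η' ≤ η) (hB : B ≤ B') : RB x₀ c₀ m X c l τ η' B' := by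
  intro z w y r K hz hy hyη hw hr hK hBK hL
  have hK0 : 0 ≤ K := by linarith
  obtain ⟨q, h1, h2, h3, h4⟩ := h z w y r K (hz.trans hη) hy (hyη.trans hη) hw hr hK
    ((mul_le_mul_of_nonneg_right (mul_le_mul_of_nonneg_right hB hK0) hr.le).trans hBK) hL
  refine ⟨q, h1.trans (mul_le_mul_of_nonneg_right hB (by positivity)),
    h2.trans (mul_le_mul_of_nonneg_right hB (norm_nonneg _)), fun s hs s' hs' => ?_, h4⟩
  exact (h3 s hs s' hs').trans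
    (mul_le_mul_of_nonneg_right (mul_le_mul_of_nonneg_right hB hK0) (norm_nonneg _))

theorem RB_exists (h1 : S_ROOTA) (h2 : S_RTC) {d k : ℕ} {x₀ : CV d} {c₀ : Fin k → ℂ}
    {m : Fin k → ℕ} {X : (Fin k → ℂ) → CV d} {c : Fin k → (Fin k → ℂ) → ℂ} {ρ : ℝ} (hd : 2 ≤ d)
    (hnd : ND x₀) (h10 : wr x₀ (1, 0) ≠ 0) (hf : Fac x₀ k c₀ m) (hX : Fami x₀ k c₀ m X c ρ)
    (l : Fin k) (τ : Bool) (hdn : dn τ (c₀ l, 1) ≠ 0) :
    ∃ η > (0 : ℝ), ∃ B ≥ (1 : ℝ), RB x₀ c₀ m X c l τ η B := by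
  obtain ⟨ρ₂, hρ₂, -, h₁, ha, hb, hc, hd', he⟩ := h2 d k x₀ c₀ m X c ρ hd hnd h10 hf hX l τ hdn
  have hc0 : c l 0 = c₀ l := hX.c0 l
  obtain ⟨η, hη, hηρ, B, hB, hq⟩ := h1 k (m l) ρ₂
    (fun s u => GG (X s) τ (tau (qo x₀ (c₀ l) 1)) u) (fun s => lc τ (c l s, 1)) h₁ (hf.pos l) hρ₂
    ha (by rw [hc0]; exact hb) (by rw [hc0]; exact hc) (by rw [hc0]; exact hd')
    (by
      rw [hc0]
      intro s hs u hu
      exact ((he s hs).2.2 u hu).1)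
  refine ⟨η, hη, B, hB, ?_⟩
  intro z w y r K hz hy hyη hw hr hK hBK hL
  have h0 : (0 : Fin k → ℂ) ∈ ball (0 : Fin k → ℂ) ρ₂ := mem_ball_self hρ₂
  obtain ⟨q, hq1, hq2, hq3, hq4⟩ := hq z w y r K (by rw [hc0]; exact hz) hy hyη
    (by
      rw [hw]
      congr 2
      exact (he 0 h0).2.1.symm) hr hK hBK hL
  rw [hc0] at hq1 hq4
  refine ⟨q, hq1, hq2, hq3, fun s hs => ?_⟩
  obtain ⟨hs1, hs2, hs3, hs4⟩ := hq4 s hs
  obtain ⟨-, h5, h6⟩ := (he s hs1).2.2 (q s) hs2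
  refine ⟨fun h7 => hs3 (h6 h7), ?_⟩
  have hs4' : GG (X s) τ (tau (qo x₀ (c₀ l) 1)) (q s) = w s := hs4
  rwa [hs4'] at h5

/-- the coordinates of points near a critical point -/
theorem zc_near {p : ℂ × ℂ} (hp : p ≠ 0) (c : ℂ) (h : cho p (c, 1) ≤ 1 / 2) :
    dn (tau p) (c, 1) ≠ 0 ∧ ‖zc p - lc (tau p) (c, 1)‖ ≤
      (Real.sqrt (2 * (‖c‖ ^ 2 + 1)) * (1 + 1 / ‖c‖)) * cho p (c, 1) := by
  have hcr : ‖cr p (c, 1)‖ = cho p (c, 1) * Real.sqrt (N2 p * N2 (c, 1)) := by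
    unfold cho
    have h1 := N2_pos hp
    have h2 := N2_pos (one_ne c)
    have h3 : 0 < Real.sqrt (N2 p * N2 (c, 1)) := Real.sqrt_pos.2 (mul_pos h1 h2)
    field_simp
  have hch : 0 ≤ cho p (c, 1) := by
    unfold cho
    positivity
  have hN1 : N2 (c, 1) = ‖c‖ ^ 2 + 1 := by
    unfold N2
    simp
  by_cases ht : ‖p.1‖ ≤ ‖p.2‖
  · have htau : tau p = true := by
      unfold tau
      simp [ht]
    have hp2 : p.2 ≠ 0 := by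
      intro h2
      rw [h2, norm_zero] at ht
      exact hp (Prod.ext (norm_le_zero_iff.1 ht) h2)
    have hp2n : 0 < ‖p.2‖ := norm_pos_iff.2 hp2
    rw [htau]
    refine ⟨by simp [dn], ?_⟩
    have e1 : zc p - lc true (c, 1) = cr p (c, 1) / p.2 := by
      unfold zc
      rw [htau]
      simp only [lc, cr, if_true]
      field_simp
    have hN : Real.sqrt (N2 p * N2 (c, 1)) ≤ ‖p.2‖ * Real.sqrt (2 * (‖c‖ ^ 2 + 1)) := by
      rw [hN1, ← Real.sqrt_sq hp2n.le, ← Real.sqrt_mul (sq_nonneg _)]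
      apply Real.sqrt_le_sqrt
      have h3 : N2 p ≤ 2 * ‖p.2‖ ^ 2 := by
        unfold N2
        have := pow_le_pow_left₀ (norm_nonneg _) ht 2
        linarith
      nlinarith [sq_nonneg ‖c‖]
    rw [e1, norm_div, hcr]
    have h4 : 0 ≤ Real.sqrt (2 * (‖c‖ ^ 2 + 1)) := Real.sqrt_nonneg _
    rw [div_le_iff₀ hp2n]
    have h5 : (1 : ℝ) ≤ 1 + 1 / ‖c‖ := by
      have : 0 ≤ 1 / ‖c‖ := by positivity
      linarith
    calc cho p (c, 1) * Real.sqrt (N2 p * N2 (c, 1))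
        ≤ cho p (c, 1) * (‖p.2‖ * Real.sqrt (2 * (‖c‖ ^ 2 + 1))) :=
          mul_le_mul_of_nonneg_left hN hch
      _ = (Real.sqrt (2 * (‖c‖ ^ 2 + 1)) * 1) * cho p (c, 1) * ‖p.2‖ := by ring
      _ ≤ (Real.sqrt (2 * (‖c‖ ^ 2 + 1)) * (1 + 1 / ‖c‖)) * cho p (c, 1) * ‖p.2‖ := by
          gcongr
  · have htau : tau p = false := by
      unfold tau
      simp [ht]
    have ht' : ‖p.2‖ < ‖p.1‖ := not_le.1 ht
    have hp1n : 0 < ‖p.1‖ := (norm_nonneg _).trans_lt ht'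
    have hp1 : p.1 ≠ 0 := norm_pos_iff.1 hp1n
    have h3 : N2 p ≤ 2 * ‖p.1‖ ^ 2 := by
      unfold N2
      have := pow_le_pow_left₀ (norm_nonneg _) ht'.le 2
      linarith
    have hN : Real.sqrt (N2 p * N2 (c, 1)) ≤ ‖p.1‖ * Real.sqrt (2 * (‖c‖ ^ 2 + 1)) := by
      rw [hN1, ← Real.sqrt_sq hp1n.le, ← Real.sqrt_mul (sq_nonneg _)]
      apply Real.sqrt_le_sqrt
      nlinarith [sq_nonneg ‖c‖]
    rw [htau]
    have hc : c ≠ 0 := by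
      rintro rfl
      have h6 : ‖cr p (0, 1)‖ = ‖p.1‖ := by simp [cr]
      rw [h6] at hcr
      have h7 : ‖p.1‖ ≤ 1 / 2 * (‖p.1‖ * Real.sqrt (2 * (‖(0:ℂ)‖ ^ 2 + 1))) := by
        calc ‖p.1‖ = cho p (0, 1) * Real.sqrt (N2 p * N2 (0, 1)) := hcr
          _ ≤ 1 / 2 * (‖p.1‖ * Real.sqrt (2 * (‖(0:ℂ)‖ ^ 2 + 1))) :=
            mul_le_mul h hN (Real.sqrt_nonneg _) (by norm_num)
      have h8 : Real.sqrt (2 * (‖(0:ℂ)‖ ^ 2 + 1)) < 2 := by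
        rw [Real.sqrt_lt' (by norm_num)]
        norm_num
      nlinarith
    have hcn : 0 < ‖c‖ := norm_pos_iff.2 hc
    refine ⟨by simpa [dn] using hc, ?_⟩
    have e1 : zc p - lc false (c, 1) = - (cr p (c, 1) / (p.1 * c)) := by
      unfold zc
      rw [htau]
      simp only [lc, cr, Bool.false_eq_true, if_false]
      field_simp
      ring
    rw [e1, norm_neg, norm_div, norm_mul, hcr, div_le_iff₀ (by positivity)]
    have h4 : 0 ≤ Real.sqrt (2 * (‖c‖ ^ 2 + 1)) := Real.sqrt_nonneg _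
    calc cho p (c, 1) * Real.sqrt (N2 p * N2 (c, 1))
        ≤ cho p (c, 1) * (‖p.1‖ * Real.sqrt (2 * (‖c‖ ^ 2 + 1))) :=
          mul_le_mul_of_nonneg_left hN hch
      _ = Real.sqrt (2 * (‖c‖ ^ 2 + 1)) * cho p (c, 1) * ‖p.1‖ * (1 / ‖c‖ * ‖c‖) := by
          field_simp
      _ ≤ Real.sqrt (2 * (‖c‖ ^ 2 + 1)) * cho p (c, 1) * ‖p.1‖ * ((1 + 1 / ‖c‖) * ‖c‖) := by
          gcongr
          linarith
      _ = (Real.sqrt (2 * (‖c‖ ^ 2 + 1)) * (1 + 1 / ‖c‖)) * cho p (c, 1) * (‖p.1‖ * ‖c‖) := by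
          ring

theorem t_ROOTB (h1 : Pool.Agent.H207.BT.S_ROOTA) (h2 : Pool.Agent.H207.BT.S_RTC) :
    Pool.Agent.H207.BT.S_ROOT := by
  intro d k x₀ c₀ m X c ρ hd hnd h10 hf hX
  have hall : ∀ i : Fin k × Bool, ∃ η > (0 : ℝ), ∃ B ≥ (1 : ℝ),
      dn i.2 (c₀ i.1, 1) ≠ 0 → RB x₀ c₀ m X c i.1 i.2 η B := by
    intro i
    by_cases hi : dn i.2 (c₀ i.1, 1) = 0
    · exact ⟨1, one_pos, 1, le_rfl, fun h => absurd hi h⟩
    · obtain ⟨η, hη, B, hB, h⟩ := RB_exists h1 h2 hd hnd h10 hf hX i.1 i.2 hi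
      exact ⟨η, hη, B, hB, fun _ => h⟩
  choose η₁ hη₁ B₁ hB₁ hRB using hall
  obtain ⟨η₀, hη₀, hη₀pos⟩ : ∃ η₀ : ℝ, (∀ i, η₀ ≤ η₁ i) ∧ 0 < η₀ := by
    have e1 : ∀ᶠ η₀ in 𝓝[>] (0 : ℝ), ∀ i, η₀ ≤ η₁ i := by
      rw [eventually_all]
      intro i
      filter_upwards [Ioc_mem_nhdsGT (hη₁ i)] with a ha using ha.2
    exact (e1.and self_mem_nhdsWithin).exists
  obtain ⟨B₀, hB₀, hB₀1⟩ : ∃ B₀ : ℝ, (∀ i, B₁ i ≤ B₀) ∧ 1 ≤ B₀ := by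
    have e1 : ∀ᶠ B₀ in (atTop : Filter ℝ), ∀ i, B₁ i ≤ B₀ := by
      rw [eventually_all]
      intro i
      exact eventually_ge_atTop _
    exact (e1.and (eventually_ge_atTop 1)).exists
  obtain ⟨C, hC, hC1⟩ : ∃ C : ℝ,
      (∀ l : Fin k, Real.sqrt (2 * (‖c₀ l‖ ^ 2 + 1)) * (1 + 1 / ‖c₀ l‖) ≤ C) ∧ 1 ≤ C := by
    have e1 : ∀ᶠ C in (atTop : Filter ℝ),
        ∀ l : Fin k, Real.sqrt (2 * (‖c₀ l‖ ^ 2 + 1)) * (1 + 1 / ‖c₀ l‖) ≤ C := by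
      rw [eventually_all]
      intro i
      exact eventually_ge_atTop _
    exact (e1.and (eventually_ge_atTop 1)).exists
  have hC0 : 0 < C := by linarith
  have hB0 : 0 < B₀ := by linarith
  refine ⟨min (min ρ (1 / 2)) (η₀ / C), lt_min (lt_min hX.ρ0 (by norm_num)) (div_pos hη₀pos hC0),
    (min_le_left _ _).trans (min_le_left _ _), B₀ * C, one_le_mul_of_one_le_of_one_le hB₀1 hC1, ?_⟩
  intro p l w y r K hp hcho hy hyη hw hr hK hBK hL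
  have hcho1 : cho p (c₀ l, 1) ≤ 1 / 2 :=
    hcho.trans ((min_le_left _ _).trans (min_le_right _ _))
  have hcho2 : cho p (c₀ l, 1) ≤ η₀ / C := hcho.trans (min_le_right _ _)
  have hchn : 0 ≤ cho p (c₀ l, 1) := by
    unfold cho
    positivity
  obtain ⟨hdn, hnear⟩ := zc_near hp (c₀ l) hcho1
  have hnear' : ‖zc p - lc (tau p) (c₀ l, 1)‖ ≤ C * cho p (c₀ l, 1) :=
    hnear.trans (mul_le_mul_of_nonneg_right (hC l) hchn)
  have hR : RB x₀ c₀ m X c l (tau p) η₀ B₀ :=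
    RB_mono (hRB (l, tau p) hdn) (hη₀ _) (hB₀ _)
  have hyη' : y ≤ η₀ := by
    refine hyη.trans ((min_le_right _ _).trans ?_)
    exact div_le_self hη₀pos.le hC1
  have hz : ‖zc p - lc (tau p) (c₀ l, 1)‖ ≤ η₀ := by
    refine hnear'.trans ?_
    have := mul_le_mul_of_nonneg_left hcho2 hC0.le
    rwa [mul_div_cancel₀ _ hC0.ne'] at this
  have hKr : 0 ≤ K * r := by
    have : 0 ≤ K := by linarith
    positivity
  have hBC : B₀ ≤ B₀ * C := le_mul_of_one_le_right hB0.le hC1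
  have hBK' : B₀ * K * r ≤ y ^ (m l + 1) := by
    refine le_trans ?_ hBK
    rw [mul_assoc, mul_assoc (B₀ * C)]
    exact mul_le_mul_of_nonneg_right hBC hKr
  obtain ⟨q, hq1, hq2, hq3, hq4⟩ := hR (zc p) w y r K hz hy hyη' hw hr hK hBK' hL
  refine ⟨q, ?_, ?_, ?_, hq4⟩
  · refine hq1.trans ?_
    rw [mul_assoc]
    refine mul_le_mul_of_nonneg_left ?_ hB0.le
    nlinarith
  · exact hq2.trans (mul_le_mul_of_nonneg_right hBC (norm_nonneg _))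
  · intro s hs s' hs'
    refine (hq3 s hs s' hs').trans ?_
    have hK0 : 0 ≤ K := by linarith
    exact mul_le_mul_of_nonneg_right (mul_le_mul_of_nonneg_right hBC hK0) (norm_nonneg _)

end Pool.Agent.H965.BT207
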